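import Pool.Agent.Lib.MP_cf558f_lc.Final

open Pool.Agent.Lib Pool.Agent.Lib.MP_cf558f_lc

/-- Membership for a fixed DFA with translucent words is decided in time `O(n log n)` by a
deterministic unit-cost random-access machine all of whose numbers are `O(n)`. -/
theorem Pool.Agent.Results.MP_cf558f_lc.NLogN.result (Q α : Type) [Finite Q] (k : ℕ)
    (e : α ≃ Fin k) (A : DFAwtw Q α) :
    ∃ (P : List Ram.Instr) (C : ℕ), ∀ w : List α, ∃ s : Ram.Config,
      Ram.HaltsWithin P (Ram.initial (w.map fun a => (e a : ℕ)))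
        (C * ((w.length + 1) * (Nat.log 2 (w.length + 1) + 1))) (C * (w.length + 1)) s ∧
      (w ∈ A.language → s.reg 0 = 1) ∧ (w ∉ A.language → s.reg 0 = 0) :=
  Pool.Agent.Lib.MP_cf558f_lc.main A e
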